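import Pool.Agent.N70.PP.Stm3
import Pool.Agent.TH59.WX.PG
import Pool.Agent.N600.UK.Main

/-!
# (GDP) Kernels of embedding problems in characteristic `p`: closure properties

Adaptation of `Pool.Agent.N97.EP.Gd0` (fields of characteristic zero), itself adapted from
`Pool.Agent.TH59.WX` and `Pool.Agent.N600.UK` (all infinite fields), to infinite fields of
characteristic `p` (helper555).
-/

set_option autoImplicit false
set_option linter.unusedSectionVars false

namespace Pool.Agent.N555.PP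

open Pool.Agent.H391R2 (Wr wr_mul_left wr_mul_right wr_inv_left)
open Pool.Agent.H391R2.T4 (RegSol exists_equiv_of_ker finite_wr)
open Pool.Agent.TH15.IGP (IndData bigHom ind_reg fin_of_inf)
open Pool.Agent.TH59.WX
open Pool.Agent.TH444.TW (IsInnerPower RSK inner_rsk RegularOver)
open Pool.Agent.N600.UK (CL reg_quot exists_decomp snd_rsk regularOver_perm conj_inj)
open Pool.Agent.N70.PP (GoodKerP St_gdp)

variable {p : ℕ}

theorem charP_ratFunc (K : Type) [Field K] [CharP K p] : CharP (RatFunc K) p :=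
  charP_of_injective_algebraMap (algebraMap K (RatFunc K)).injective p

theorem infinite_ratFunc (K : Type) [Field K] [Infinite K] : Infinite (RatFunc K) :=
  Infinite.of_injective _ (algebraMap K (RatFunc K)).injective

section one

variable (K L : Type) [Field K] [CharP K p] [Infinite K] [Field L] [Algebra K L] [FiniteDimensional K L]
  [IsGalois K L] {X : Type} [Group X] [Finite X] (α : X →* (L ≃ₐ[K] L))
  (hα : Function.Surjective α) {ι : Type} [Finite ι] [DecidableEq ι]
  {T : ι → Type} [∀ i, Group (T i)] (e : α.ker ≃* ∀ i, T i)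
  (hI : ∀ i, Indec (T i)) (hN : ∀ i, Nontrivial (T i))

include hα in
theorem one_orbit0 (i₀ : ι) (hG : GoodKerP p (T i₀))
    (htrans : ∀ i, ∃ x, pX α e hI hN x i₀ = i) : RegSol K L X α := by
  classical
  let K₁ := IntermediateField.fixedField (stb α e hI hN hα i₀)
  have hΔ : K₁.fixingSubgroup = stb α e hI hN hα i₀ :=
    IntermediateField.fixingSubgroup_fixedField _
  obtain ⟨H, iH, q, aH, hq, haH, haq, hq1, ⟨eH⟩⟩ :=
    quot_data α e hI hN hα i₀ K₁.fixingSubgroup hΔ
  let αH : H →* (L ≃ₐ[K₁] L) := (IntermediateField.fixingSubgroupEquiv K₁).toMonoidHom.comp aH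
  have hαH : Function.Surjective αH :=
    (IntermediateField.fixingSubgroupEquiv K₁).surjective.comp haH
  have hker : αH.ker = aH.ker := by
    ext h
    rw [MonoidHom.mem_ker, MonoidHom.mem_ker]
    change IntermediateField.fixingSubgroupEquiv K₁ (aH h) = 1 ↔ aH h = 1
    rw [map_eq_one_iff _ (IntermediateField.fixingSubgroupEquiv K₁).injective]
  have hbig : ∀ h : H, bigHom K₁ αH h = (aH h : L ≃ₐ[K] L) := by
    intro h
    apply AlgEquiv.ext
    intro x
    rfl
  have hcK₁ : CharP K₁ p := charP_of_injective_algebraMap (algebraMap K K₁).injective p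
  have hinfK₁ : Infinite K₁ := Infinite.of_injective _ (algebraMap K K₁).injective
  have hreg : RegSol K₁ L H αH := hG K₁ L H αH hαH ⟨(MulEquiv.subgroupCongr hker).trans eH⟩
  -- the data
  have hmem : ∀ x : X, α x ∈ K₁.fixingSubgroup ↔ pX α e hI hN x i₀ = i₀ := by
    intro x
    rw [hΔ]
    exact mem_stb α e hI hN hα i₀ x
  let Q : X → H := fun x => if h : α x ∈ K₁.fixingSubgroup then q ⟨x, h⟩ else 1
  have hQ : ∀ (x : X) (h : α x ∈ K₁.fixingSubgroup), Q x = q ⟨x, h⟩ := fun x h => dif_pos h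
  have hQ1 : ∀ (n : X) (hn : n ∈ α.ker), Q n = 1 ↔ e ⟨n, hn⟩ i₀ = 1 := by
    intro n hn
    have h1 : α n ∈ K₁.fixingSubgroup := by
      have h2 : α n = 1 := hn
      rw [h2]
      exact one_mem _
    rw [hQ n h1, hq1]
    exact ⟨fun ⟨_, h⟩ => h, fun h => ⟨hn, h⟩⟩
  let D : IndData (L ≃ₐ[K] L) X H K₁.fixingSubgroup (bigHom K₁ αH) α :=
    { q := Q
      mul := by
        intro d d' hd hd'
        have h1 : α (d * d') ∈ K₁.fixingSubgroup := by
          rw [map_mul]
          exact mul_mem hd hd'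
        rw [hQ d hd, hQ d' hd', hQ _ h1, ← map_mul]
        rfl
      comp := by
        intro d hd
        rw [hbig, hQ d hd, haq]
      inj := by
        intro a ha h
        have h1 : e ⟨a, ha⟩ = 1 := by
          funext i
          obtain ⟨x, rfl⟩ := htrans i
          have ha' : x⁻¹ * a * x ∈ α.ker := by
            have h2 := conj_mem_ker α x⁻¹ (n := a) ha
            rwa [inv_inv] at h2
          have h3 := (hQ1 _ ha').1 (h x)
          have h4 := (pX_iff α e hI hN x i₀ (x⁻¹ * a * x) ha').2 h3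
          have h5 : (⟨x * (x⁻¹ * a * x) * x⁻¹, conj_mem_ker α x ha'⟩ : α.ker) = ⟨a, ha⟩ :=
            Subtype.ext (by group)
          rw [h5] at h4
          exact h4
        have h2 : (⟨a, ha⟩ : α.ker) = 1 := by
          apply e.injective
          rw [h1, map_one]
        exact congrArg Subtype.val h2
      surj := by
        intro b hb
        rw [hbig] at hb
        have hb1 : aH b = 1 := Subtype.ext hb
        obtain ⟨⟨x, hx⟩, rfl⟩ := hq b
        have hxk : x ∈ α.ker := by
          have h1 := haq ⟨x, hx⟩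
          rw [hb1] at h1
          exact h1.symm
        refine ⟨sn α e i₀ (e ⟨x, hxk⟩ i₀), sn_mem α e i₀ _, ?_, ?_⟩
        · have h1 : α (sn α e i₀ (e ⟨x, hxk⟩ i₀)) ∈ K₁.fixingSubgroup := by
            have h2 : α (sn α e i₀ (e ⟨x, hxk⟩ i₀)) = 1 := sn_mem α e i₀ _
            rw [h2]
            exact one_mem _
          rw [hQ _ h1, ← inv_mul_eq_one, ← map_inv, ← map_mul, hq1]
          refine ⟨mul_mem (inv_mem (sn_mem α e i₀ _)) hxk, ?_⟩
          have h3 : (⟨_, mul_mem (inv_mem (sn_mem α e i₀ (e ⟨x, hxk⟩ i₀))) hxk⟩ : α.ker) =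
            ⟨sn α e i₀ (e ⟨x, hxk⟩ i₀), sn_mem α e i₀ _⟩⁻¹ * ⟨x, hxk⟩ := rfl
          change e ⟨_, mul_mem (inv_mem (sn_mem α e i₀ (e ⟨x, hxk⟩ i₀))) hxk⟩ i₀ = 1
          rw [h3, map_mul, map_inv, e_sn]
          change (Pi.mulSingle i₀ (e ⟨x, hxk⟩ i₀) i₀)⁻¹ * e ⟨x, hxk⟩ i₀ = 1
          rw [Pi.mulSingle_eq_same, inv_mul_cancel]
        · intro f hf
          have hf' : pX α e hI hN f i₀ ≠ i₀ := fun h => hf ((hmem f).2 h)
          have ha' : f⁻¹ * sn α e i₀ (e ⟨x, hxk⟩ i₀) * f ∈ α.ker := by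
            have h2 := conj_mem_ker α f⁻¹ (n := sn α e i₀ (e ⟨x, hxk⟩ i₀)) (sn_mem α e i₀ _)
            rwa [inv_inv] at h2
          rw [hQ1 _ ha', ← pX_iff α e hI hN f i₀ _ ha']
          have h5 : (⟨f * (f⁻¹ * sn α e i₀ (e ⟨x, hxk⟩ i₀) * f) * f⁻¹,
              conj_mem_ker α f ha'⟩ : α.ker) = ⟨sn α e i₀ (e ⟨x, hxk⟩ i₀), sn_mem α e i₀ _⟩ :=
            Subtype.ext (by group)
          rw [h5, e_sn]
          exact Pi.mulSingle_eq_of_ne hf' _ }
  exact ind_reg K L K₁ H αH X α hα D hreg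

end one

theorem prod_good_aux0 (N : ℕ) : ∀ (ι : Type) [Finite ι] (T : ι → Type) [∀ i, Group (T i)]
    [∀ i, Finite (T i)], (∀ i, Indec (T i)) → (∀ i, Nontrivial (T i)) → (∀ i, GoodKerP p (T i)) →
    Nat.card ι = N → GoodKerP p (∀ i, T i) := by
  classical
  induction N using Nat.strong_induction_on with
  | _ N ih =>
  intro ι _ T _ _ hI hN hG hcard K L X _ _ _ _ _ _ _ _ α hα ⟨e⟩
  have hfinX : Finite X := finite_of_kernel α e.symm
  rcases isEmpty_or_nonempty ι with hem | ⟨⟨i₀⟩⟩
  · -- trivial kernel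
    have hinj : Function.Injective α := by
      rw [injective_iff_map_eq_one]
      intro x hx
      have h1 : (⟨x, hx⟩ : α.ker) = 1 := e.injective (Subsingleton.elim _ _)
      exact congrArg Subtype.val h1
    exact Pool.Agent.W200.IJ.taskA_empty K L X α hinj (fun x hx => by
      rw [IsGalois.mem_range_algebraMap_iff_fixed]
      intro σ
      obtain ⟨g, rfl⟩ := hα σ
      exact hx g)
  · let π := pX α e hI hN
    let S : Set ι := {i | ∃ x, π x i₀ = i}
    have hi₀ : i₀ ∈ S := ⟨1, by rw [map_one]; rfl⟩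
    have hS : ∀ x i, π x i ∈ S ↔ i ∈ S := by
      intro x i
      constructor
      · rintro ⟨y, hy⟩
        refine ⟨x⁻¹ * y, ?_⟩
        rw [map_mul, Equiv.Perm.mul_apply, hy, map_inv]
        exact (π x).symm_apply_apply i
      · rintro ⟨y, rfl⟩
        exact ⟨x * y, by rw [map_mul]; rfl⟩
    let NS : Subgroup X :=
      { carrier := {x | ∃ h : x ∈ α.ker, ∀ i, i ∉ S → e ⟨x, h⟩ i = 1}
        one_mem' := ⟨one_mem _, fun i _ => by
          have h1 : (⟨(1 : X), one_mem _⟩ : α.ker) = 1 := rfl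
          rw [h1, map_one]
          rfl⟩
        mul_mem' := by
          rintro x y ⟨hx, h1⟩ ⟨hy, h2⟩
          refine ⟨mul_mem hx hy, fun i hi => ?_⟩
          have h3 : (⟨x * y, mul_mem hx hy⟩ : α.ker) = ⟨x, hx⟩ * ⟨y, hy⟩ := rfl
          rw [h3, map_mul]
          change e ⟨x, hx⟩ i * e ⟨y, hy⟩ i = 1
          rw [h1 i hi, h2 i hi, mul_one]
        inv_mem' := by
          rintro x ⟨hx, h1⟩
          refine ⟨inv_mem hx, fun i hi => ?_⟩
          have h3 : (⟨x⁻¹, inv_mem hx⟩ : α.ker) = ⟨x, hx⟩⁻¹ := rfl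
          rw [h3, map_inv]
          change (e ⟨x, hx⟩ i)⁻¹ = 1
          rw [h1 i hi, inv_one] }
    have hNS : ∀ x, x ∈ NS ↔ ∃ h : x ∈ α.ker, ∀ i, i ∉ S → e ⟨x, h⟩ i = 1 := fun x => Iff.rfl
    have hnorm : NS.Normal := by
      refine ⟨?_⟩
      rintro n ⟨hn, h1⟩ x
      refine ⟨conj_mem_ker α x hn, fun j hj => ?_⟩
      obtain ⟨i, rfl⟩ := (π x).surjective j
      rw [hS] at hj
      exact (pX_iff α e hI hN x i n hn).2 (h1 i hj)
    let r : X →* X ⧸ NS := QuotientGroup.mk' NS
    have hr : Function.Surjective r := QuotientGroup.mk'_surjective NS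
    have hrk : ∀ x, r x = 1 ↔ ∃ h : x ∈ α.ker, ∀ i, i ∉ S → e ⟨x, h⟩ i = 1 := by
      intro x
      rw [← hNS]
      exact QuotientGroup.eq_one_iff x
    let δ : X ⧸ NS →* (L ≃ₐ[K] L) := QuotientGroup.lift NS α (fun x hx => hx.1)
    have hδ : ∀ x, δ (r x) = α x := fun x => rfl
    have hδs : Function.Surjective δ := fun τ => by
      obtain ⟨x, hx⟩ := hα τ
      exact ⟨r x, hx⟩
    -- the quotient
    have hlt : Nat.card (Sᶜ : Set ι) < N := by
      rw [← hcard]
      exact Finite.card_subtype_lt (p := fun i => i ∈ (Sᶜ : Set ι)) (x := i₀) (fun h => h hi₀)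
    have hreg : RegSol K L (X ⧸ NS) δ := ih _ hlt (Sᶜ : Set ι) (fun i => T i)
      (fun i => hI i) (fun i => hN i) (fun i => hG i) rfl K L (X ⧸ NS) δ hδs
      (quot_equiv α e r hr δ hδ S hrk)
    obtain ⟨F', i1, i2, i3, i4, i5, i6, i7, i8, γ', hγ1, hγ2⟩ := hreg
    let β : X →* (F' ≃ₐ[RatFunc K] F') := γ'.symm.toMonoidHom.comp r
    have hβ : ∀ x, β x = 1 ↔ ∃ h : x ∈ α.ker, ∀ i, i ∉ S → e ⟨x, h⟩ i = 1 := by
      intro x
      rw [← hrk]
      change γ'.symm (r x) = 1 ↔ r x = 1
      rw [map_eq_one_iff _ γ'.symm.injective]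
    have hβs : Function.Surjective β := γ'.symm.surjective.comp hr
    obtain ⟨eβ, heβ⟩ := sub_equiv α e β S hβ
    have hIS : ∀ i : S, Indec (T i) := fun i => hI i
    have hNtS : ∀ i : S, Nontrivial (T i) := fun i => hN i
    have hπβ : ∀ x, pX β eβ hIS hNtS x = (π x).subtypePerm (hS x) := by
      intro x
      refine pX_unique β eβ hIS hNtS x _ ?_
      intro i n hn h
      have hnα : n ∈ α.ker := ((hβ n).1 hn).1
      rw [heβ n hn hnα] at h
      rw [heβ _ _ (conj_mem_ker α x hnα)]
      exact (pX_iff α e hI hN x i n hnα).2 h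
    have hcp : CharP (RatFunc K) p := charP_ratFunc K
    have hinf : Infinite (RatFunc K) := infinite_ratFunc K
    have hreg2 : RegSol (RatFunc K) F' X β := by
      refine one_orbit0 (RatFunc K) F' β hβs eβ hIS hNtS ⟨i₀, hi₀⟩ (hG i₀) ?_
      rintro ⟨i, x, hx⟩
      refine ⟨x, ?_⟩
      rw [hπβ]
      exact Subtype.ext hx
    exact collapse K L α δ r hδ F' γ' hγ1 hγ2 hreg2

theorem prod_good0 (ι : Type) [Finite ι] (T : ι → Type) [∀ i, Group (T i)]
    [∀ i, Finite (T i)] (hI : ∀ i, Indec (T i)) (hN : ∀ i, Nontrivial (T i))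
    (hG : ∀ i, GoodKerP p (T i)) : GoodKerP p (∀ i, T i) :=
  prod_good_aux0 _ ι T hI hN hG rfl

theorem good_iso0 {T T' : Type} [Group T] [Group T'] (e : T ≃* T') (h : GoodKerP p T) : GoodKerP p T' := by
  intro K L X _ _ _ _ _ _ _ _ α hα ⟨f⟩
  exact h K L X α hα ⟨f.trans e.symm⟩

/-- Direct factors. -/
theorem good_factor0 {A B : Type} [Group A] [Group B] (h : GoodKerP p (A × B)) : GoodKerP p A := by
  intro K L X _ _ _ _ _ _ _ _ α hα ⟨f⟩
  let β : X × B →* (L ≃ₐ[K] L) := α.comp (MonoidHom.fst X B)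
  have hβ : Function.Surjective β := hα.comp Prod.fst_surjective
  have hker : Nonempty (β.ker ≃* A × B) := by
    let u : A × B →* X × B := ((α.ker.subtype.comp f.symm.toMonoidHom).prodMap (MonoidHom.id B))
    have hu : ∀ p, u p = (((f.symm p.1 : α.ker) : X), p.2) := fun p => rfl
    have hmem : ∀ p, u p ∈ β.ker := fun p => by
      rw [MonoidHom.mem_ker]
      exact (f.symm p.1).2
    refine ⟨(MulEquiv.ofBijective (u.codRestrict β.ker hmem) ⟨?_, ?_⟩).symm⟩
    · intro p q hpq
      have h1 := congrArg Subtype.val hpq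
      change u p = u q at h1
      rw [hu, hu, Prod.mk.injEq] at h1
      exact Prod.ext (f.symm.injective (Subtype.ext h1.1)) h1.2
    · rintro ⟨⟨x, b⟩, hx⟩
      refine ⟨(f ⟨x, hx⟩, b), Subtype.ext ?_⟩
      change u _ = (x, b)
      rw [hu, MulEquiv.symm_apply_apply]
  exact reg_quot α β (MonoidHom.fst X B) Prod.fst_surjective (fun y => rfl)
    (h K L (X × B) β hβ hker)

/-- Extensions by normal subgroups of the big group. -/
theorem good_step0 {K L X : Type} [Field K] [CharP K p] [Infinite K] [Field L] [Algebra K L]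
    [FiniteDimensional K L] [IsGalois K L] [Group X] [Finite X] (α : X →* (L ≃ₐ[K] L))
    (_hα : Function.Surjective α) (X' : Type) [Group X'] (r : X →* X')
    (hr : Function.Surjective r) (δ : X' →* (L ≃ₐ[K] L)) (hδ : ∀ x, δ (r x) = α x)
    (h1 : RegSol K L X' δ) (h2 : GoodKerP p r.ker) : RegSol K L X α := by
  obtain ⟨F', i1, i2, i3, i4, i5, i6, i7, i8, γ', hγ1, hγ2⟩ := h1
  let β : X →* (F' ≃ₐ[RatFunc K] F') := γ'.symm.toMonoidHom.comp r
  have hβs : Function.Surjective β := γ'.symm.surjective.comp hr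
  have hcp : CharP (RatFunc K) p := charP_ratFunc K
  have hinf : Infinite (RatFunc K) := infinite_ratFunc K
  have hker : β.ker = r.ker := by
    ext x
    rw [MonoidHom.mem_ker, MonoidHom.mem_ker]
    change γ'.symm (r x) = 1 ↔ r x = 1
    rw [map_eq_one_iff _ γ'.symm.injective]
  exact collapse K L α δ r hδ F' γ' hγ1 hγ2
    (h2 (RatFunc K) F' X β hβs ⟨MulEquiv.subgroupCongr hker⟩)

/-- Characteristic extensions. -/
theorem good_char0 {T : Type} [Group T] [Finite T] (C : Subgroup T) [hC : C.Characteristic]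
    (h1 : GoodKerP p C) (h2 : GoodKerP p (T ⧸ C)) : GoodKerP p T := by
  intro K L X _ _ _ _ _ _ _ _ α hα ⟨e⟩
  have hfinX : Finite X := finite_of_kernel α e.symm
  -- the subgroup of `X`
  let u : T →* X := α.ker.subtype.comp e.symm.toMonoidHom
  have hu : ∀ t, u t = ((e.symm t : α.ker) : X) := fun t => rfl
  have huinj : Function.Injective u := Subtype.val_injective.comp e.symm.injective
  let N : Subgroup X := C.map u
  have hNle : N ≤ α.ker := by
    rintro _ ⟨t, -, rfl⟩
    exact (e.symm t).2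
  have hN : N.Normal := by
    refine ⟨?_⟩
    rintro _ ⟨t, ht, rfl⟩ x
    let a : MulAut T := (MulAut.congr e) (MulAut.conjNormal x)
    have ha : a t ∈ C := by
      have h3 := hC.fixed a
      have h4 : t ∈ C.comap (a : T →* T) := by
        have h5 : C.comap a.toMonoidHom = C := hC.fixed a
        rw [← h5] at ht
        exact ht
      exact h4
    refine ⟨a t, ha, ?_⟩
    have h3 : a t = e (MulAut.conjNormal x (e.symm t)) := rfl
    rw [hu, h3, MulEquiv.symm_apply_apply, MulAut.conjNormal_apply]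
    rfl
  let r : X →* X ⧸ N := QuotientGroup.mk' N
  have hr : Function.Surjective r := QuotientGroup.mk'_surjective N
  let δ : X ⧸ N →* (L ≃ₐ[K] L) := QuotientGroup.lift N α (fun x hx => hNle hx)
  have hδ : ∀ x, δ (r x) = α x := fun x => rfl
  have hδs : Function.Surjective δ := fun τ => by
    obtain ⟨x, hx⟩ := hα τ
    exact ⟨r x, hx⟩
  -- the kernel of `δ`
  have hk : Nonempty (δ.ker ≃* T ⧸ C) := by
    let f : T →* δ.ker := (r.comp u).codRestrict δ.ker (fun t => by
      rw [MonoidHom.mem_ker]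
      change δ (r (u t)) = 1
      rw [hδ]
      exact (e.symm t).2)
    have hf : Function.Surjective f := by
      rintro ⟨x', hx'⟩
      obtain ⟨x, rfl⟩ := hr x'
      rw [MonoidHom.mem_ker, hδ] at hx'
      refine ⟨e ⟨x, hx'⟩, Subtype.ext ?_⟩
      change r (u _) = r x
      rw [hu, MulEquiv.symm_apply_apply]
    have hfk : f.ker = (QuotientGroup.mk' C).ker := by
      rw [QuotientGroup.ker_mk']
      ext t
      rw [MonoidHom.mem_ker]
      constructor
      · intro h
        have h3 : r (u t) = 1 := congrArg Subtype.val h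
        rw [QuotientGroup.mk'_apply, QuotientGroup.eq_one_iff] at h3
        obtain ⟨t', ht', h4⟩ := h3
        rwa [← huinj h4]
      · intro h
        apply Subtype.ext
        change r (u t) = 1
        rw [QuotientGroup.mk'_apply, QuotientGroup.eq_one_iff]
        exact ⟨t, h, rfl⟩
    obtain ⟨E, -⟩ := exists_equiv_of_ker f (QuotientGroup.mk' C) hf
      (QuotientGroup.mk'_surjective C) hfk
    exact ⟨E⟩
  have hrk : GoodKerP p r.ker := by
    have h3 : r.ker = N := QuotientGroup.ker_mk' N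
    refine good_iso0 ?_ h1
    exact (Subgroup.equivMapOfInjective C u huinj).trans (MulEquiv.subgroupCongr h3.symm)
  exact good_step0 α hα (X ⧸ N) r hr δ hδ (h2 K L (X ⧸ N) δ hδs hk) hrk

/-- A factor of a product of indecomposable groups. -/
theorem good_component0 {J : Type} [Finite J] {U : J → Type} [∀ j, Group (U j)]
    (h : GoodKerP p (∀ j, U j)) (j₀ : J) : GoodKerP p (U j₀) := by
  classical
  have e : (∀ j, U j) ≃* U j₀ × (∀ j : {j // j ≠ j₀}, U j) :=
    { toFun := fun f => (f j₀, fun j => f j)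
      invFun := fun p j => if h : j = j₀ then h ▸ p.1 else p.2 ⟨j, h⟩
      left_inv := fun f => by
        funext j
        by_cases hj : j = j₀
        · subst hj
          simp
        · simp [hj]
      right_inv := fun p => by
        refine Prod.ext ?_ ?_
        · simp
        · funext j
          simp [j.2]
      map_mul' := fun f g => rfl }
  exact good_factor0 (good_iso0 e h)

/-- Products of good groups with trivial centre. -/
theorem good_pi0 (I : Type) [Finite I] (T : I → Type) [∀ i, Group (T i)] [∀ i, Finite (T i)]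
    (hC : ∀ i, CL (T i)) (h : ∀ i, GoodKerP p (T i)) : GoodKerP p (∀ i, T i) := by
  have hd := fun i => exists_decomp _ (T i) (hC i) rfl
  choose J hJ U hU1 hU2 hI hN e using hd
  let S := Σ i, J i
  let V : S → Type := fun p => U p.1 p.2
  have hV : GoodKerP p (∀ p : S, V p) := by
    refine prod_good0 S V (fun p => hI p.1 p.2) (fun p => hN p.1 p.2) (fun p => ?_)
    exact good_component0 (good_iso0 (e p.1).some (h p.1)) p.2
  refine good_iso0 ?_ hV
  have e1 : (∀ i, T i) ≃* ∀ i, ∀ j : J i, U i j := MulEquiv.piCongrRight fun i => (e i).some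
  refine MulEquiv.trans ?_ e1.symm
  exact
    { toFun := fun f i j => f ⟨i, j⟩
      invFun := fun f p => f p.1 p.2
      left_inv := fun f => rfl
      right_inv := fun f => rfl
      map_mul' := fun f g => rfl }

/-- Wreath products of good groups with trivial centre. -/
theorem good_wr0 {T : Type} [Group T] [Finite T] [Nontrivial T] (hC : CL T) (h : GoodKerP p T) (n : ℕ)
    (hn : 2 * (Nat.card T + 2) ≤ n) : GoodKerP p (Wr T n) := by
  intro K L X _ _ _ _ _ _ _ _ α hα ⟨e⟩
  have hfinW : Finite (Wr T n) := finite_wr T n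
  have hfinX : Finite X := finite_of_kernel α e.symm
  obtain ⟨D, -, hDc, -⟩ := exists_D (G := T) (n := n) hn hC
  let ι : Wr T n ≃* α.ker := e.symm
  let c : X →* MulAut (Wr T n) := (MulAut.congr ι.symm).toMonoidHom.comp MulAut.conjNormal
  have hc : ∀ w : Wr T n, c (ι w) = MulAut.conj w := by
    intro w
    apply MulEquiv.ext
    intro x
    change ι.symm (MulAut.conjNormal (ι w : X) (ι x)) = w * x * w⁻¹
    rw [MulEquiv.symm_apply_eq]
    apply Subtype.ext
    rw [MulAut.conjNormal_apply]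
    simp only [map_mul, map_inv, Subgroup.coe_mul, Subgroup.coe_inv]
  let π : X →* Equiv.Perm (Fin n) := (SemidirectProduct.rightHom.comp D).comp c
  have hπ : ∀ w : Wr T n, π (ι w : X) = w.right := by
    intro w
    change (D (c (ι w))).right = w.right
    rw [hc, hDc]
  let r : X →* Equiv.Perm (Fin n) × (L ≃ₐ[K] L) := π.prod α
  have hr : Function.Surjective r := by
    rintro ⟨p, ρ⟩
    obtain ⟨x₀, rfl⟩ := hα ρ
    refine ⟨(ι ⟨1, p * (π x₀)⁻¹⟩ : X) * x₀, ?_⟩
    refine Prod.ext ?_ ?_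
    · change π _ = p
      rw [map_mul, hπ, inv_mul_cancel_right]
    · change α _ = α x₀
      rw [map_mul]
      have h1 : α (ι ⟨1, p * (π x₀)⁻¹⟩ : X) = 1 := (ι _).2
      rw [h1, one_mul]
  have hfinΓ : Finite (L ≃ₐ[K] L) := inferInstance
  have h1 : RegSol K L (Equiv.Perm (Fin n) × (L ≃ₐ[K] L)) (MonoidHom.snd _ _) :=
    snd_rsk K _ (regularOver_perm K n) (L ≃ₐ[K] L) K L (MulEquiv.refl _)
  refine good_step0 α hα _ r hr (MonoidHom.snd _ _) (fun x => rfl) h1 ?_
  -- the kernel
  have hpow : GoodKerP p (Fin n → T) := good_pi0 (Fin n) (fun _ => T) (fun _ => hC) (fun _ => h)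
  refine good_iso0 ?_ hpow
  let f : (Fin n → T) →* r.ker :=
    (α.ker.subtype.comp (ι.toMonoidHom.comp SemidirectProduct.inl)).codRestrict r.ker (fun b => by
      rw [MonoidHom.mem_ker]
      refine Prod.ext ?_ ?_
      · change π (ι (SemidirectProduct.inl b) : X) = 1
        rw [hπ]
        rfl
      · exact (ι (SemidirectProduct.inl b)).2)
  refine MulEquiv.ofBijective f ⟨?_, ?_⟩
  · intro a b hab
    have h2 : ((ι (SemidirectProduct.inl a) : α.ker) : X) =
        ((ι (SemidirectProduct.inl b) : α.ker) : X) := congrArg (fun z : r.ker => (z : X)) hab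
    exact SemidirectProduct.inl_injective (ι.injective (Subtype.ext h2))
  · rintro ⟨x, hx⟩
    rw [MonoidHom.mem_ker] at hx
    have hx1 : π x = 1 := congrArg Prod.fst hx
    have hx2 : α x = 1 := congrArg Prod.snd hx
    obtain ⟨w, hw⟩ := ι.surjective ⟨x, hx2⟩
    have h3 : (ι w : X) = x := congrArg Subtype.val hw
    have h4 : w.right = 1 := by rw [← hπ, h3, hx1]
    refine ⟨w.left, Subtype.ext ?_⟩
    change ((ι (SemidirectProduct.inl w.left) : α.ker) : X) = x
    rw [← h3]
    congr 2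
    exact SemidirectProduct.ext rfl h4.symm

/-- **(GDP)** -/
theorem t_gdp (p : ℕ) [Fact p.Prime] : Pool.Agent.N70.PP.St_gdp p where
  iso _ _ _ _ e h := good_iso0 e h
  factor _ _ _ _ h := good_factor0 h
  char _ _ _ C _ h1 h2 := good_char0 C h1 h2
  pi I _ T _ _ hC h := good_pi0 I T hC h
  wr _ _ _ _ hC h n hn := good_wr0 hC h n hn

end Pool.Agent.N555.PP
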